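import Pool.Agent.TH377.NC.Emb
import Pool.Agent.TH377.Dyn.Box

/-!
# MP_2f3286_ag: plane curves given by norm forms, and all extensions of the base field

Let `K` be a number field, `E/K` a finite extension of degree `d`, and `D ≥ 2`.  We consider all plane
curves of degree `d` over `K` of the form

  `X : N_{E/K}(A₀ x₀ + A₁ x₁ + A₂ x₂) = a Q(x₀, x₁, x₂)ⁿ`,   `A₀, A₁, A₂ ∈ E`,  `a ∈ K`,

where `D | n | d` and `Q` is a form of degree `d/n` over `K`.  The `d` conjugate lines
`σ(A₀) x₀ + σ(A₁) x₁ + σ(A₂) x₂ = 0` meet `X` with multiplicities divisible by `n`.  For instance, for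
`d = 4` and `n = 2` the curve `X` is a plane quartic for which they are four conjugate bitangents (and
over an algebraically closed field every smooth plane quartic is of this form in 315 ways), for
`Q = x₂^q` and `A₂ = 0` it is the superelliptic curve `a yⁿ = f(x)` with a polynomial `f` that has a
root in `E`, and for `d = n` it is the curve `N_{E/K}(A₀ x₀ + A₁ x₁ + A₂ x₂) = a M(x₀, x₁, x₂)^d` with a
linear form `M` and `d` conjugate lines that meet it in one point each.  We only assume that `Q` does
not vanish at the points of intersection of the conjugate lines, which is part of the smoothness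
of `X`.

Suppose that some `σ ∈ Gal(K̄/K)` has only orbits of lengths divisible by `gcd(2, D) D` on the
embeddings of `E` into `K̄`.  (This holds for a suitable `σ` if, for instance, `D` is an odd prime
number and `E/K` is Galois of degree divisible by `D`, and for quartic fields `E` with Galois group
`S₄`, `D₄` or `C₄` and `D = 2`.)  We prove: for all `a ∈ O_K` outside a set of density zero which
depends only on `E` and `D`, for ALL `n`, `A`, `Q` as above and ALL finite extensions `L` of `K` with
`D ∤ [L : K]`, the curve `X` has no point over `L`, and the fundamental group of `X_L`, of each of its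
open subcurves and of all smooth curves (or varieties) over `L` that dominate it or an open subcurve
has no section over `G_L`.  So `D` divides the degree of each field `L` over which one of the
sections, or points, exists; the case `L = K` says that the section conjecture holds (without
points and sections) for all these curves `X`.

The fundamental group is described through valuations.  Let `U` be a smooth geometrically connected
curve over `k` with function field `F`, let `Ω` be an algebraic closure of `F`, and let `F_U` be the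
maximal extension of `F` inside `Ω` which is unramified over the closed points of `U`, that is, over
their local rings, which are valuation rings of `F`.  Then `π₁(U) = Gal(F_U/F)`, and the map
`π₁(U) → G_k` is the restriction of automorphisms to the algebraic closure of `k` in `Ω`.

Proof.  By Chebotarev's theorem and a sieve, almost all `a` are divisible exactly once by a prime `v`
of `K` for which the Frobenius element acts on the embeddings of `E` as `σ`.  Let `l` be a prime number
with `v_l([L : K]) < v_l(D)`.  There is a place `w` of `L` over `v` with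
`v_l(e f) ≤ v_l([L : K])`, where `e = e(w|v)` and `f = f(w|v)`; put `ℓ = l^(1 + v_l(e))`, a divisor of
`D` and so of `n`.  Then `ℓ ∤ w(a) = e`, and the orbits of the Frobenius element at `w` on the
embeddings of `E` have lengths divisible by `gcd(2, ℓ) ℓ`.  Let `s` be a section over `L_w`.  For two
conjugate linear forms `λ_i`, `λ_j` the function `λ_i/λ_j` on `X` is an `ℓ`-th power up to units at
all places, since at each place all of the `λ_i` but at most one have the same value, and
`∏ λ_i = a Qⁿ`.  So `λ_i/λ_j` has an `ℓ`-th root in `F_U`, and by Kummer theory it is `c_{ij} β^ℓ`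
with a constant `c_{ij}` in the unramified extension `S` of `L_w` generated by the conjugates of `E`
and with `β` fixed by `s(G_S)`.  The numbers `w(c_{ij})` modulo `ℓ` are well-defined, additive, and
invariant under Frobenius, so the sum over `i` of the `w(c_{ij})` is `0` modulo `ℓ`.  But the equation
of the curve shows that it is `w(a) = e` modulo `ℓ`, a contradiction.
-/

set_option autoImplicit false
set_option maxHeartbeats 400000

open NumberField IsDedekindDomain Filter Topology

namespace Pool.Agent.Results.MP_2f3286_ag.NormCurves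

universe u v w x y z

section definitions

variable (k : Type u) (F : Type v) (Ω : Type w) [Field k] [Field F] [Field Ω] [Algebra k F]
  [Algebra F Ω] [Algebra k Ω]

/-- The inertia group of the valuation ring `W` of `Ω`, as a subgroup of `Gal(Ω/F)`: the
automorphisms of `Ω` over `F` that map `W` onto itself and act as the identity on its residue
field. -/
noncomputable def inertia (W : ValuationSubring Ω) : Subgroup (Ω ≃ₐ[F] Ω) :=
  (W.inertiaSubgroup F).map (W.decompositionSubgroup F).subtype

/-- `F_U`, for a set `U` of valuation rings of `F`: the elements of `Ω` fixed by the inertia groups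
of all valuation rings `W` of `Ω` with `W ∩ F ∈ U`.  If `Ω` is an algebraic closure of a field `F`
of characteristic zero, this is the maximal extension of `F` in `Ω` unramified over `U`. -/
noncomputable def unramified (U : Set (ValuationSubring F)) : IntermediateField F Ω :=
  ⨅ W : {W : ValuationSubring Ω // W.comap (algebraMap F Ω) ∈ U},
    IntermediateField.fixedField (inertia F Ω W.1)

/-- The map `τ : M → M` acts as `σ : K → K` on the elements that the fields `K` and `M` have in
common when they are regarded as subfields of `Ω` through `i` and `j`. -/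
def ActsAs {K M Ω : Type*} [Field K] [Field M] [Field Ω] (i : K →+* Ω) (j : M →+* Ω) (σ : K → K)
    (τ : M → M) : Prop :=
  ∀ c z, j z = i c → j (τ z) = i (σ c)

/-- Let `k ⊆ K ⊆ Ω` and `F ⊆ M ⊆ Ω` be fields.  A splitting of `Gal(M/F) → Gal(K/k)`: a continuous
homomorphism `s` from `Gal(K/k)` to `Gal(M/F)` such that `s(σ)` acts as `σ` on the elements of
`K ∩ M`. -/
structure Splitting (K M : Type*) [Field K] [Field M] [Algebra k K] [Algebra F M] [Algebra K Ω]
    [Algebra M Ω] where
  /-- the homomorphism `Gal(K/k) → Gal(M/F)` -/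
  toHom : (K ≃ₐ[k] K) →* (M ≃ₐ[F] M)
  cont : Continuous toHom
  compat : ∀ σ : K ≃ₐ[k] K, ActsAs (algebraMap K Ω) (algebraMap M Ω) σ (toHom σ)

/-- The sections of `π₁(U) = Gal(F_U/F) → G_k`: the continuous homomorphisms `s` from
`G_k = Gal(k̄/k)` to `Gal(F_U/F)`, where `k̄` is the algebraic closure of `k` in `Ω`, such that
`s(σ)` acts as `σ` on the elements of `k̄`. -/
def GaloisSection (U : Set (ValuationSubring F)) : Type w :=
  Splitting k F Ω (algebraicClosure k Ω) (unramified F Ω U)

end definitions

section curve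

variable {K : Type u} {E : Type x} [Field K] [Field E] [Algebra K E] [FiniteDimensional K E]

/-- The equation `N_{E/K}(A₀ x₀ + A₁ x₁ + A₂ x₂) = a Q(x₀, x₁, x₂)ⁿ` at a vector with entries in an
algebraically closed field `Ω` over `K`: the norm is the product over the embeddings `σ` of `E` into
`Ω` of the `σ(A₀) x₀ + σ(A₁) x₁ + σ(A₂) x₂`. -/
def OnCurve {Ω : Type*} [Field Ω] [Algebra K Ω] (A : Fin 3 → E) (a : K)
    (Q : MvPolynomial (Fin 3) K) (n : ℕ) (x : Fin 3 → Ω) : Prop :=
  ∏ σ : E →ₐ[K] Ω, ∑ j, σ (A j) * x j = algebraMap K Ω a * MvPolynomial.aeval x Q ^ n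

/-- The form `Q` does not vanish at the points of intersection of two conjugate lines
`σ(A₀) x₀ + σ(A₁) x₁ + σ(A₂) x₂ = 0`.  (In particular these lines are different.) -/
def Transversal (A : Fin 3 → E) (Q : MvPolynomial (Fin 3) K) : Prop :=
  ∀ σ τ : E →ₐ[K] AlgebraicClosure K, σ ≠ τ →
    MvPolynomial.aeval (crossProduct (fun j => σ (A j)) (fun j => τ (A j))) Q ≠ 0

/-- The curve has no point over `L`. -/
def NoPoint (L : Type y) [Field L] [Algebra K L] (A : Fin 3 → E) (a : K)
    (Q : MvPolynomial (Fin 3) K) (n : ℕ) : Prop :=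
  ∀ x : Fin 3 → L, x ≠ 0 → ¬ OnCurve A a Q n fun j => algebraMap L (AlgebraicClosure L) (x j)

/-- Let `F` be any field over `L` that contains a point of the curve, for instance the function field
of the curve over `L`, and let `Ω` be an algebraic closure of `F`.  Then for every set `U` of
valuation rings of `F` over `L` there is no section of `π₁(U) → G_L`.  If `F` is the function field of
the curve, such `U` are given by its normalisation and by all its open subcurves. -/
def NoSection (L : Type y) [Field L] [Algebra K L] (A : Fin 3 → E) (a : K)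
    (Q : MvPolynomial (Fin 3) K) (n : ℕ) : Prop :=
  ∀ (F : Type v) (Ω : Type w) [Field F] [Field Ω] [Algebra L F] [Algebra F Ω] [Algebra L Ω]
    [Algebra K Ω] [IsScalarTower L F Ω] [IsScalarTower K L Ω] [IsAlgClosure F Ω] (x : Fin 3 → F)
    (U : Set (ValuationSubring F)), x ≠ 0 → OnCurve A a Q n (fun j => algebraMap F Ω (x j)) →
      (∀ O ∈ U, ∀ c : L, algebraMap L F c ∈ O) → IsEmpty (GaloisSection L F Ω U)

end curve

/-- Some element `σ` of `Gal(K̄/K)` has only orbits of lengths divisible by `N` on the embeddings `τ`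
of `E` into `K̄`: if `σᵐ τ = τ`, then `N` divides `m`. -/
def HasOrbits (K : Type u) (E : Type x) [Field K] [Field E] [Algebra K E] (N : ℕ) : Prop :=
  ∃ σ : AlgebraicClosure K ≃ₐ[K] AlgebraicClosure K, ∀ (τ : E →ₐ[K] AlgebraicClosure K) (m : ℕ),
    (∀ z, (σ ^ m) (τ z) = τ z) → N ∣ m

/-- The integers `a` of `K` that do not have the following property: `a ≠ 0`, and for all finite
extensions `L` of `K` whose degree is not divisible by `D`, all `n` with `D | n | [E : K]`, all
`A₀, A₁, A₂ ∈ E` and all forms `Q` of degree `[E : K]/n` over `K` that do not vanish at the points of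
intersection of the conjugate lines, the curve `N_{E/K}(A₀ x₀ + A₁ x₁ + A₂ x₂) = a Qⁿ` has no point
and no section over `L`. -/
def Exceptional (K : Type u) [Field K] (E : Type x) [Field E] [Algebra K E]
    [FiniteDimensional K E] (D : ℕ) : Set (𝓞 K) :=
  {a | ¬ (a ≠ 0 ∧ ∀ (L : Type y) [Field L] [Algebra K L] [FiniteDimensional K L],
    ¬ D ∣ Module.finrank K L → ∀ n q : ℕ, D ∣ n → n * q = Module.finrank K E →
      ∀ (A : Fin 3 → E) (Q : MvPolynomial (Fin 3) K), Q.IsHomogeneous q → Transversal A Q →
        NoPoint L A (a : K) Q n ∧ NoSection.{u, v, w} L A (a : K) Q n)}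

/-- Density zero: for every `ε > 0` there is an ideal `I ≠ 0` such that `S` lies in at most
`ε #(O_K/I)` residue classes modulo `I`. -/
def DensityZero {K : Type u} [Field K] (S : Set (𝓞 K)) : Prop :=
  ∀ ε : ℝ, 0 < ε → ∃ I : Ideal (𝓞 K), I ≠ ⊥ ∧
    (Set.ncard ((Ideal.Quotient.mk I) '' S) : ℝ) ≤ ε * (Nat.card (𝓞 K ⧸ I) : ℝ)

/-- The integers of `K` whose coordinates in the integral basis `ω` have absolute value at
most `H`. -/
def Box {K : Type u} [Field K] {J : Type z} (ω : Module.Basis J ℤ (𝓞 K)) (H : ℕ) : Set (𝓞 K) :=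
  {a | ∀ j, |ω.repr a j| ≤ (H : ℤ)}

section proof

open Pool.Agent.TH377.NC Pool.Agent.TH120.Sec Polynomial

lemma toSec {k : Type u} {F : Type v} {Ω : Type w} [Field k] [Field F] [Field Ω] [Algebra k F]
    [Algebra F Ω] [Algebra k Ω] (U : Set (ValuationSubring F))
    (h : IsEmpty (Pool.Agent.W620.SC.GSection k F Ω U)) : IsEmpty (GaloisSection k F Ω U) :=
  ⟨fun s => h.false ⟨s.toHom, s.cont, s.compat⟩⟩

/-- the norm as a product over roots -/
lemma norm_roots {K : Type u} {E : Type x} {L : Type y} {Ω : Type w} [Field K] [CharZero K]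
    [Field E] [Algebra K E] [FiniteDimensional K E] [Field L] [Algebra K L] [Field Ω]
    [Algebra L Ω] [Algebra K Ω] [IsScalarTower K L Ω] [IsAlgClosed Ω] (pb : PowerBasis K E)
    (P : Fin 3 → K[X]) (x : Fin 3 → Ω) :
    ∏ σ : E →ₐ[K] Ω, ∑ j, σ (aeval pb.gen (P j)) * x j =
      ((((minpoly K pb.gen).map (algebraMap K L)).map (algebraMap L Ω)).roots.map fun θ =>
        ∑ j, aeval θ ((P j).map (algebraMap K L)) * x j).prod := by
  rw [Polynomial.map_map, ← IsScalarTower.algebraMap_eq K L Ω]
  change _ = (((minpoly K pb.gen).aroots Ω).map _).prod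
  rw [← prod_emb pb]
  refine Finset.prod_congr rfl fun σ _ => Finset.sum_congr rfl fun j _ => ?_
  rw [emb_val, aeval_map_algebraMap]

/-- the property holds if there is a good prime -/
theorem good {K : Type u} [Field K] [NumberField K] {E : Type x} [Field E] [Algebra K E]
    [FiniteDimensional K E] (D : ℕ) (hD : 2 ≤ D) (pb : PowerBasis K E) (g : (𝓞 K)[X])
    (hg : g.Monic) (hgK : g.map (algebraMap (𝓞 K) K) = minpoly K pb.gen)
    (hgd : g.natDegree = Module.finrank K E) (a : 𝓞 K) (v : HeightOneSpectrum (𝓞 K))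
    (ha : a ∈ v.asIdeal) (ha' : a ∉ v.asIdeal ^ 2)
    (hloc : Loc v (Nat.gcd 2 D * D) g.natDegree g) :
    a ∉ Exceptional.{u, v, w, x, y} K E D := by
  intro hexc
  apply hexc
  have hN : Nat.gcd 2 D * D ≠ 2 := by
    intro h
    have h1 : D ∣ 2 := Dvd.intro_left _ h
    have h2 := Nat.le_of_dvd two_pos h1
    have h3 : D = 2 := by omega
    rw [h3] at h
    norm_num at h
  refine ⟨?_, ?_⟩
  · rintro rfl
    exact ha' (zero_mem _)
  intro L _ _ _ hL n q hDn hnq A Q hQ htr
  have hNL : NumberField L := NumberField.of_module_finite K L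
  obtain ⟨ℓ, hℓ0, hℓD, R, _, _, _, _, hfr, f, hf, hfK, hfs, hfd, ϖ, t, m, hϖ, ht, hm, hat⟩ :=
    nf_data (L := L) v D (by omega) hL g hg hloc.2.2.1 (hloc.2.2.2.2 hN) a ha ha'
  obtain ⟨n', rfl⟩ := hℓD.trans hDn
  have hd0 : Module.finrank K E ≠ 0 := by
    have : 0 < Module.finrank K E := Module.finrank_pos
    exact this.ne'
  have hn' : 0 < n' := by
    rcases Nat.eq_zero_or_pos n' with h | h
    · rw [h, mul_zero, zero_mul] at hnq
      exact absurd hnq.symm hd0
    · exact h
  have hfL : f.map (algebraMap R L) = (minpoly K pb.gen).map (algebraMap K L) := by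
    rw [hfK, ← hgK, Polynomial.map_map, ← IsScalarTower.algebraMap_eq (𝓞 K) K L]
  have hfdeg : f.natDegree = n' * ℓ * q := by
    have h1 : (f.map (algebraMap R L)).natDegree = f.natDegree := hf.natDegree_map _
    rw [← h1, hfK, hg.natDegree_map, hgd, ← hnq]
    ring
  choose P hP using fun j => pb.exists_eq_aeval' (A j)
  have hA : A = fun j => aeval pb.gen (P j) := funext hP
  have hQL : (MvPolynomial.map (algebraMap K L) Q).IsHomogeneous q := hQ.map _
  have htr' : ∀ σ τ : E →ₐ[K] AlgebraicClosure K, σ ≠ τ → MvPolynomial.aeval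
      (crossProduct (fun j => σ (aeval pb.gen (P j))) (fun j => τ (aeval pb.gen (P j)))) Q ≠ 0 := by
    intro σ τ hστ
    have h1 := htr σ τ hστ
    rw [hA] at h1
    exact h1
  have haL : algebraMap (𝓞 K) L a = algebraMap K L (a : K) :=
    IsScalarTower.algebraMap_apply (𝓞 K) K L a
  refine ⟨?_, ?_⟩
  · intro x hx hon
    have hst : IsScalarTower K L (AlgebraicClosure L) := inferInstance
    refine local_point (A := R) (k := L) (kb := AlgebraicClosure L) ℓ hℓ0 f hf hfs hfd ϖ hϖ
      (algebraMap (𝓞 K) L a) t ht m hm hat (fun j => (P j).map (algebraMap K L))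
      (MvPolynomial.map (algebraMap K L) Q) q hQL ?_ x hx n' hn' ?_
    · intro θ θ' hθ hθ' hne
      rw [hfL, aeval_map_algebraMap] at hθ hθ'
      exact nd_lift pb P Q htr' θ θ' hθ hθ' hne
    · rw [hfL, ← norm_roots pb P]
      unfold OnCurve at hon
      rw [hA] at hon
      rw [hon, haL, ← IsScalarTower.algebraMap_apply, mul_comm n' ℓ]
      congr 2
      rw [MvPolynomial.aeval_def, MvPolynomial.eval₂_map, MvPolynomial.hom_eval₂,
        RingHom.id_comp, ← IsScalarTower.algebraMap_eq]
  · intro F Ω _ _ _ _ _ _ _ _ _ x U hx hon hU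
    have hcl : IsAlgClosed Ω := IsAlgClosure.isAlgClosed F
    have halg : Algebra.IsAlgebraic F Ω := IsAlgClosure.isAlgebraic
    have hac : IsAlgClosure L (algebraicClosure L Ω) := inferInstance
    have hkb : IsAlgClosed (algebraicClosure L Ω) := hac.1
    refine toSec U (local_section (A := R) (k := L) ℓ hℓ0 f hf hfs hfd ϖ hϖ
      (algebraMap (𝓞 K) L a) t ht m hm hat U hU (fun j => (P j).map (algebraMap K L))
      (MvPolynomial.map (algebraMap K L) Q) q hQL ?_ x hx n' hn' hfdeg ?_)
    · intro θ θ' hθ hθ' hne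
      rw [hfL, aeval_map_algebraMap] at hθ hθ'
      exact nd_lift pb P Q htr' θ θ' hθ hθ' hne
    · rw [hfL, ← norm_roots pb P]
      unfold OnCurve at hon
      rw [hA] at hon
      rw [hon, haL, ← IsScalarTower.algebraMap_apply, mul_comm n' ℓ]
      congr 2
      rw [MvPolynomial.aeval_def, MvPolynomial.eval₂_map, MvPolynomial.hom_eval₂,
        ← RingHom.comp_assoc, ← IsScalarTower.algebraMap_eq L F Ω,
        ← IsScalarTower.algebraMap_eq K L Ω]

/-- one-dimensional boxes -/
lemma box_one {K : Type u} [Field K] [NumberField K] (S : Set (𝓞 K)) {J : Type z} [Fintype J]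
    (ω : Module.Basis J ℤ (𝓞 K)) (H : ℕ) :
    (S ∩ Box ω H).ncard =
      ({f : Fin 1 → 𝓞 K | f 0 ∈ S} ∩ Pool.Agent.TH377.Dyn.BoxD ω 1 H).ncard := by
  have h1 : (fun f : Fin 1 → 𝓞 K => f 0) ''
      ({f : Fin 1 → 𝓞 K | f 0 ∈ S} ∩ Pool.Agent.TH377.Dyn.BoxD ω 1 H) = S ∩ Box ω H := by
    ext a
    constructor
    · rintro ⟨f, ⟨hf1, hf2⟩, rfl⟩
      exact ⟨hf1, fun j => hf2 0 j⟩
    · rintro ⟨ha1, ha2⟩
      exact ⟨fun _ => a, ⟨ha1, fun _ j => ha2 j⟩, rfl⟩
  rw [← h1, Set.ncard_image_of_injective]
  intro f f' h
  funext i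
  rw [Subsingleton.elim i 0]
  exact h

/-- the main theorem -/
theorem main (K : Type u) [Field K] [NumberField K] (E : Type x) [Field E] [Algebra K E]
    [FiniteDimensional K E] (D : ℕ) (hD : 2 ≤ D) (hE : HasOrbits K E (Nat.gcd 2 D * D)) :
    DensityZero (Exceptional.{u, v, w, x, y} K E D) ∧
      ∀ (J : Type z) [Fintype J] (ω : Module.Basis J ℤ (𝓞 K)),
        Tendsto (fun H : ℕ => ((Exceptional.{u, v, w, x, y} K E D ∩ Box ω H).ncard : ℝ) /
          ((Box ω H).ncard : ℝ)) atTop (𝓝 0) := by
  obtain ⟨pb, g, hg, hgK, hgd⟩ := exists_gen K E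
  obtain ⟨σ, hσ⟩ := hE
  have hN : 3 ≤ Nat.gcd 2 D * D := by
    rcases Nat.even_or_odd D with h | h
    · have h1 : Nat.gcd 2 D = 2 := Nat.gcd_eq_left (even_iff_two_dvd.1 h)
      rw [h1]
      omega
    · have h1 : 1 ≤ Nat.gcd 2 D := Nat.gcd_pos_of_pos_left _ two_pos
      obtain ⟨r, hr⟩ := h
      have h3 : 3 ≤ D := by omega
      calc 3 ≤ 1 * D := by omega
        _ ≤ Nat.gcd 2 D * D := Nat.mul_le_mul_right _ h1
  have hspc := spc_of_gen pb g hg hgK (Nat.gcd 2 D * D) hN σ hσ
  have hE : ∀ t ∈ Exceptional.{u, v, w, x, y} K E D, ∀ v : HeightOneSpectrum (𝓞 K),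
      ¬ ((X : (𝓞 K)[X]).eval t ∈ v.asIdeal ∧ (X : (𝓞 K)[X]).eval t ∉ v.asIdeal ^ 2 ∧
        Loc v (Nat.gcd 2 D * D) (g.map (C : 𝓞 K →+* (𝓞 K)[X])).natDegree
          ((g.map (C : 𝓞 K →+* (𝓞 K)[X])).map (evalRingHom t))) := by
    rintro t ht v ⟨h1, h2, h3⟩
    rw [eval_X] at h1 h2
    have h4 : (g.map (C : 𝓞 K →+* (𝓞 K)[X])).map (evalRingHom t) = g := by
      rw [Polynomial.map_map]
      have h5 : (evalRingHom t).comp (C : 𝓞 K →+* (𝓞 K)[X]) = RingHom.id _ := by
        ext z
        simp
      rw [h5, Polynomial.map_id]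
    rw [h4, hg.natDegree_map] at h3
    exact good D hD pb g hg hgK hgd t v h1 h2 h3 ht
  have key : Pool.Agent.TH120.Sec.DZ 1
      {f : Fin 1 → 𝓞 K | f 0 ∈ Exceptional.{u, v, w, x, y} K E D} :=
    fam_dz1 (Nat.gcd 2 D * D) X (g.map C) 0 σ hspc _ hE
  refine ⟨fam_dz (Nat.gcd 2 D * D) X (g.map C) 0 σ hspc _ hE, fun J _ ω => ?_⟩
  have h1 := Pool.Agent.TH377.Dyn.box_tendsto _ key ω
  refine h1.congr fun H => ?_
  rw [box_one, ← Set.univ_inter (Box ω H), box_one]
  simp only [Set.mem_univ, Set.ofPred_true, Set.univ_inter]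

end proof

/-- Let `K` be a number field, `D ≥ 2`, and `E/K` a finite extension such that some element of
`Gal(K̄/K)` has only orbits of lengths divisible by `gcd(2, D) D` on the embeddings of `E`.  Then for
all `a ∈ O_K` outside a set of density zero, for all finite extensions `L/K` with `D ∤ [L : K]`, all `n`
with `D | n | [E : K]`, all `A₀, A₁, A₂ ∈ E` and all forms `Q` of degree `[E : K]/n` over `K` that do not
vanish at the points of intersection of the conjugate lines, the plane curve
`N_{E/K}(A₀ x₀ + A₁ x₁ + A₂ x₂) = a Q(x₀, x₁, x₂)ⁿ` has no point over `L`, and the fundamental groups of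
its open subcurves over `L` and of all smooth curves over `L` that dominate it have no sections
over `G_L`. -/
theorem result (K : Type u) [Field K] [NumberField K] (E : Type x) [Field E] [Algebra K E]
    [FiniteDimensional K E] (D : ℕ) (hD : 2 ≤ D) (hE : HasOrbits K E (Nat.gcd 2 D * D)) :
    DensityZero (Exceptional.{u, v, w, x, y} K E D) ∧
      ∀ (J : Type z) [Fintype J] (ω : Module.Basis J ℤ (𝓞 K)),
        Tendsto (fun H : ℕ => ((Exceptional.{u, v, w, x, y} K E D ∩ Box ω H).ncard : ℝ) /
          ((Box ω H).ncard : ℝ)) atTop (𝓝 0) := by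
  exact main K E D hD hE

end Pool.Agent.Results.MP_2f3286_ag.NormCurves
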