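import Pool.Agent.TH120.Sec.FamLoc

/-!
# The section conjecture for 100% of the members of one-parameter families

Let `K` be a number field, `g ∈ K[t]`, `h ∈ K[t][x]` of degree `d ≥ 3` in `x`, and `ℓ` a prime
number that divides `d`.  Let `θ ∈ K̄` be a simple root of `g` such that the
polynomial `h(θ, x)` has degree `d` and distinct roots, and let `σ ∈ Gal(K̄/K)` be an element with
`σ(θ) = θ` that fixes no root of `h(θ, x)`, and such that all its orbits on the roots have a length
divisible by `ℓ` if `ℓ ≠ 2`.  We show that for all `t ∈ O_K` outside a set of density zero, for all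
`n ≥ 1` divisible by `ℓ`, the curve `g(t) yⁿ = h(t, x)` has no point over `K`, and its fundamental
group has no section, also when any set of closed points of the curve is removed.  So these curves,
and all smooth curves over `K` that dominate one of them, satisfy the section conjecture.

The condition means that the fibre over `t = θ` of the surface is not split: geometrically it
consists, apart from a multiple component, of `d` curves that are permuted without fixed point by
an element of the Galois group of `K(θ)`.  For `ℓ = 2` and `h(θ, x)` irreducible over `K(θ)` there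
is such an element `σ` by a theorem of Jordan.  The curves in question can have index 1 (for `ℓ = 2`
and `h(θ, x)` with factors of odd degree), and for odd `ℓ` the exponent `n` and the degree `d` can
be odd.  The case `g = t`, `h ∈ K[x]`, `ℓ = 2` is
`Pool.Agent.Results.MP_2f3286_ag.QuadraticTwists`.

The fundamental group is described through valuations.  Let `U` be a smooth geometrically connected
curve over `k` with function field `F`, let `Ω` be an algebraic closure of `F`, and let `F_U` be the
maximal extension of `F` inside `Ω` which is unramified over the closed points of `U`, that is, over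
their local rings, which are valuation rings of `F`.  Then `π₁(U) = Gal(F_U/F)`, and the map
`π₁(U) → G_k` is the restriction of automorphisms to the algebraic closure of `k` in `Ω`.

Proof.  Let `L/K` be a finite Galois extension, Galois over `ℚ`, that contains `θ` and the roots of
`h(θ, x)`.  By Chebotarev's theorem the sum of the `1/N v` over the primes `v` of `K` of prime norm
that lie under a prime of `L` whose Frobenius element is `σ|L` diverges.  For almost all such `v`
there is a residue class `t ≡ t_v mod v`, the image of `θ`, for which `v` divides `g(t)`, exactly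
once for all but one of the classes modulo `v²`, and for which the roots of `h(t, x)` modulo `v` are
distinct and are permuted by the Frobenius element of the residue field like the roots of `h(θ, x)`
by `σ`.  A sieve shows that almost all `t` are in such a class for some `v`.  For these `t`, the
curve `g(t) yⁿ = h(t, x)` has no section over the local field at `v`.  For `ℓ = 2` this is the local
theorem of `Pool.Agent.Results.MP_2f3286_ag.QuadraticTwists`.  For odd `ℓ`, let `s` be a section,
and let `S` be the field generated by the roots `ρ` of `h(t, x)`, which is unramified at `v`.  The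
functions `(x - ρ)/(x - ρ')` have `ℓ`-th roots in `F_U`.  By Kummer theory (Hilbert 90 for the
action of `G_S` through `s`) they are `c(ρ, ρ') β^ℓ` with a constant `c(ρ, ρ')` in `S` and `β` fixed
by `s(G_S)`, and `n(ρ, ρ') = v(c(ρ, ρ'))` is well-defined modulo `ℓ`, additive, and invariant under
Frobenius.  The equation of the curve shows that the sum over `ρ` of the `n(ρ, ρ')` is `v(g(t)) = 1`
modulo `ℓ`.  As the lengths of the orbits of Frobenius are divisible by the odd number `ℓ`, this sum
is `0` modulo `ℓ`, a contradiction.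
-/

open Polynomial NumberField IsDedekindDomain

namespace Pool.Agent.Results.MP_2f3286_ag.OneParameterFamilies

universe u v w

section definitions

variable (k : Type u) (F : Type v) (Ω : Type w) [Field k] [Field F] [Field Ω] [Algebra k F]
  [Algebra F Ω] [Algebra k Ω]

/-- The inertia group of the valuation ring `W` of `Ω`, as a subgroup of `Gal(Ω/F)`: the
automorphisms of `Ω` over `F` that map `W` onto itself and act as the identity on its residue
field. -/
noncomputable def inertia (W : ValuationSubring Ω) : Subgroup (Ω ≃ₐ[F] Ω) :=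
  (W.inertiaSubgroup F).map (W.decompositionSubgroup F).subtype

/-- `F_U`, for a set `U` of valuation rings of `F`: the elements of `Ω` fixed by the inertia groups
of all valuation rings `W` of `Ω` with `W ∩ F ∈ U`.  If `Ω` is an algebraic closure of a field `F`
of characteristic zero, this is the maximal extension of `F` in `Ω` unramified over `U`. -/
noncomputable def unramified (U : Set (ValuationSubring F)) : IntermediateField F Ω :=
  ⨅ W : {W : ValuationSubring Ω // W.comap (algebraMap F Ω) ∈ U},
    IntermediateField.fixedField (inertia F Ω W.1)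

/-- The map `τ : M → M` acts as `σ : K → K` on the elements that the fields `K` and `M` have in
common when they are regarded as subfields of `Ω` through `i` and `j`. -/
def ActsAs {K M Ω : Type*} [Field K] [Field M] [Field Ω] (i : K →+* Ω) (j : M →+* Ω) (σ : K → K)
    (τ : M → M) : Prop :=
  ∀ c z, j z = i c → j (τ z) = i (σ c)

/-- Let `k ⊆ K ⊆ Ω` and `F ⊆ M ⊆ Ω` be fields.  A splitting of `Gal(M/F) → Gal(K/k)`: a continuous
homomorphism `s` from `Gal(K/k)` to `Gal(M/F)` such that `s(σ)` acts as `σ` on the elements of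
`K ∩ M`. -/
structure Splitting (K M : Type*) [Field K] [Field M] [Algebra k K] [Algebra F M] [Algebra K Ω]
    [Algebra M Ω] where
  /-- the homomorphism `Gal(K/k) → Gal(M/F)` -/
  toHom : (K ≃ₐ[k] K) →* (M ≃ₐ[F] M)
  cont : Continuous toHom
  compat : ∀ σ : K ≃ₐ[k] K, ActsAs (algebraMap K Ω) (algebraMap M Ω) σ (toHom σ)

/-- The sections of `π₁(U) = Gal(F_U/F) → G_k`: the continuous homomorphisms `s` from
`G_k = Gal(k̄/k)` to `Gal(F_U/F)`, where `k̄` is the algebraic closure of `k` in `Ω`, such that
`s(σ)` acts as `σ` on the elements of `k̄`. -/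
def GaloisSection (U : Set (ValuationSubring F)) : Type w :=
  Splitting k F Ω (algebraicClosure k Ω) (unramified F Ω U)

end definitions

/-- The smooth projective curve with the affine equation `a yⁿ = f(x)` has no point over `k`:
neither in the affine part nor at infinity. -/
def NoPoint {k : Type u} [Field k] (n : ℕ) (a : k) (f : k[X]) : Prop :=
  (¬ ∃ x y : k, a * y ^ n = f.eval x) ∧
    ¬ ∃ r : k, a * r ^ Nat.gcd n f.natDegree = f.leadingCoeff

/-- Let `F` be any field over `k` that contains a point `(x, y)` of the curve `a yⁿ = f(x)`, for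
instance the function field of the curve, and let `Ω` be an algebraic closure of `F`.  Then for
every set `U` of valuation rings of `F` over `k` there is no section of `π₁(U) → G_k`.  If `F` is the
function field of the curve, such `U` are given by the smooth projective curve and by all its open
subcurves. -/
def NoSection {k : Type u} [Field k] (n : ℕ) (a : k) (f : k[X]) : Prop :=
  ∀ (F : Type v) (Ω : Type w) [Field F] [Field Ω] [Algebra k F] [Algebra F Ω] [Algebra k Ω]
    [IsScalarTower k F Ω] [IsAlgClosure F Ω] (x y : F) (U : Set (ValuationSubring F)),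
    algebraMap k F a * y ^ n = aeval x f → (∀ O ∈ U, ∀ c : k, algebraMap k F c ∈ O) →
      IsEmpty (GaloisSection k F Ω U)

/-- The polynomial `h(t, x)` in `x`, where `t` is an element of an extension `E` of `K`. -/
noncomputable def fibre {K : Type u} [Field K] {E : Type*} [Field E] [Algebra K E] (h : K[X][X])
    (t : E) : E[X] :=
  h.map (aeval t : K[X] →ₐ[K] E).toRingHom

/-- There are a simple root `θ ∈ K̄` of `g`, for which `h(θ, x)` has the same degree as `h` and
distinct roots, and `σ ∈ Gal(K̄/K)` with `σ(θ) = θ` that fixes no root of `h(θ, x)`; if `ℓ ≠ 2`, also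
no power `σ ^ m` with `m` not divisible by `ℓ` fixes a root of `h(θ, x)`, that is, the lengths of
all orbits of `σ` on the roots are divisible by `ℓ`. -/
def NonSplit {K : Type u} [Field K] (ℓ : ℕ) (g : K[X]) (h : K[X][X]) : Prop :=
  ∃ (θ : AlgebraicClosure K) (σ : AlgebraicClosure K ≃ₐ[K] AlgebraicClosure K),
    aeval θ g = 0 ∧ aeval θ g.derivative ≠ 0 ∧ aeval θ h.leadingCoeff ≠ 0 ∧
    (fibre h θ).Separable ∧ σ θ = θ ∧
    ∀ ρ, (fibre h θ).eval ρ = 0 → σ ρ ≠ ρ ∧ (ℓ ≠ 2 → ∀ m : ℕ, ¬ ℓ ∣ m → (σ ^ m) ρ ≠ ρ)

/-- The integers `t` of `K` that do not have the following property: `g(t) ≠ 0`, `h(t, x)` is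
separable of the same degree as `h`, and for no `n ≥ 1` divisible by `ℓ` the curve
`g(t) yⁿ = h(t, x)` has a point or a section. -/
def Exceptional {K : Type u} [Field K] (ℓ : ℕ) (g : K[X]) (h : K[X][X]) : Set (𝓞 K) :=
  {t | ¬ (g.eval (t : K) ≠ 0 ∧ (fibre h (t : K)).Separable ∧
    (fibre h (t : K)).natDegree = h.natDegree ∧
    ∀ n : ℕ, 0 < n → ℓ ∣ n → NoPoint n (g.eval (t : K)) (fibre h (t : K)) ∧
      NoSection.{u, v, w} n (g.eval (t : K)) (fibre h (t : K)))}

/-- Density zero: for every `ε > 0` there is an ideal `I ≠ 0` such that `E` lies in at most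
`ε #(O_K/I)` residue classes modulo `I`. -/
def DensityZero {K : Type u} [Field K] (E : Set (𝓞 K)) : Prop :=
  ∀ ε : ℝ, 0 < ε → ∃ I : Ideal (𝓞 K), I ≠ ⊥ ∧
    (Set.ncard ((Ideal.Quotient.mk I) '' E) : ℝ) ≤ ε * Nat.card (𝓞 K ⧸ I)

section proof

open Pool.Agent.TH120.Sec

variable {K : Type u} [Field K] [NumberField K]

lemma toSec {k : Type u} {F : Type v} {Ω : Type w} [Field k] [Field F] [Field Ω] [Algebra k F]
    [Algebra F Ω] [Algebra k Ω] (U : Set (ValuationSubring F))
    (h : IsEmpty (Pool.Agent.W620.SC.GSection k F Ω U)) : IsEmpty (GaloisSection k F Ω U) :=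
  ⟨fun s => h.false ⟨s.toHom, s.cont, s.compat⟩⟩

lemma evC_eq (θ : AlgebraicClosure K) :
    ((aeval θ : K[X] →ₐ[K] AlgebraicClosure K).toRingHom).comp
      (mapRingHom (algebraMap (𝓞 K) K)) = evC θ := by
  apply Polynomial.ringHom_ext
  · intro a
    simp [evC]
  · simp [evC]

lemma evK_eq (t : 𝓞 K) :
    ((aeval (t : K) : K[X] →ₐ[K] K).toRingHom).comp (mapRingHom (algebraMap (𝓞 K) K)) =
      (algebraMap (𝓞 K) K).comp (evalRingHom t) := by
  apply Polynomial.ringHom_ext
  · intro a
    simp
  · simp

lemma spc_of (ℓ : ℕ) (g : K[X]) (h : K[X][X]) (a : 𝓞 K) (ha : (a : K) ≠ 0) (G : (𝓞 K)[X])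
    (H : (𝓞 K)[X][X]) (hG : G.map (algebraMap (𝓞 K) K) = C (a : K) * g)
    (hH : H.map (mapRingHom (algebraMap (𝓞 K) K)) = C (C (a : K)) * h)
    (hs : NonSplit ℓ g h) : ∃ θ σ, Spc ℓ G H θ σ := by
  obtain ⟨θ, σ, h1, h2, h3, h4, h5, h6⟩ := hs
  have hinj : Function.Injective (algebraMap (𝓞 K) K) := IsFractionRing.injective (𝓞 K) K
  have haC : algebraMap K (AlgebraicClosure K) (a : K) ≠ 0 := (_root_.map_ne_zero _).2 ha
  have hev : ∀ q : (𝓞 K)[X], evC θ q = aeval θ (q.map (algebraMap (𝓞 K) K)) := fun q =>
    (congrFun (congrArg DFunLike.coe (evC_eq θ)) q).symm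
  have hHθ : H.map (evC θ) = C (algebraMap K (AlgebraicClosure K) (a : K)) * fibre h θ := by
    rw [← evC_eq, ← Polynomial.map_map, hH, Polynomial.map_mul, map_C]
    congr 1
    simp
  have hlc : (H.leadingCoeff).map (algebraMap (𝓞 K) K) = C (a : K) * h.leadingCoeff := by
    have e1 : (H.map (mapRingHom (algebraMap (𝓞 K) K))).leadingCoeff =
        mapRingHom (algebraMap (𝓞 K) K) H.leadingCoeff :=
      leadingCoeff_map_of_injective
        (f := mapRingHom (algebraMap (𝓞 K) K)) (Polynomial.map_injective _ hinj) H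
    have e2 : (C (C (a : K)) * h).leadingCoeff = C (a : K) * h.leadingCoeff := by
      rw [leadingCoeff_mul, leadingCoeff_C]
    rw [← e2, ← hH, e1]
    rfl
  refine ⟨θ, σ, ?_, ?_, ?_, ?_, h5, ?_, ?_⟩
  · rw [hev, hG, map_mul, h1, mul_zero]
  · rw [hev, ← derivative_map, hG, derivative_C_mul, map_mul, aeval_C]
    exact mul_ne_zero haC h2
  · rw [hev, hlc, map_mul, aeval_C]
    exact mul_ne_zero haC h3
  · rw [hHθ]
    exact Separable.unit_mul (isUnit_C.2 haC.isUnit) h4
  · intro ρ hρ
    rw [hHθ, eval_mul, eval_C] at hρ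
    exact (h6 ρ ((mul_eq_zero.1 hρ).resolve_left haC)).1
  · intro hℓ n hn ρ hρ
    rw [hHθ, eval_mul, eval_C] at hρ
    have := (h6 ρ ((mul_eq_zero.1 hρ).resolve_left haC)).2 hℓ n hn
    rwa [AlgEquiv.coe_pow] at this

end proof

/-- Let `K` be a number field, `ℓ` a prime number, `g ∈ K[t]`, `h ∈ K[t][x]`, where the degree of
`h` in `x` is divisible by `ℓ` and at least 3.  Suppose that `NonSplit ℓ g h`: some element of
`Gal(K̄/K)` fixes a simple root `θ` of `g` but no root of `h(θ, x)`, and for `ℓ ≠ 2` its orbits on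
these roots have lengths divisible by `ℓ`.  Then for all `t ∈ O_K` outside a set of density zero, for
all `n ≥ 1` divisible by `ℓ`, the curve `g(t) yⁿ = h(t, x)` has no point over `K`, and the
fundamental groups of its open subcurves and of all smooth curves over `K` that dominate it have no
sections. -/
theorem result (K : Type u) [Field K] [NumberField K] (ℓ : ℕ) (hℓ : ℓ.Prime) (g : K[X])
    (h : K[X][X]) (hd : ℓ ∣ h.natDegree) (h3 : 3 ≤ h.natDegree) (hs : NonSplit ℓ g h) :
    DensityZero (Exceptional.{u, v, w} ℓ g h) := by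
  have hℓd := hd
  replace hd : ℓ = 2 → Even h.natDegree ∧ 4 ≤ h.natDegree := by
    intro h2
    rw [h2, ← even_iff_two_dvd] at hd
    refine ⟨hd, ?_⟩
    obtain ⟨j, hj⟩ := hd
    omega
  have hinj : Function.Injective (algebraMap (𝓞 K) K) := IsFractionRing.injective (𝓞 K) K
  obtain ⟨a₁, ha₁, G₁, hG₁⟩ := Pool.Agent.TH120.Sec.clear1 g
  obtain ⟨a₂, ha₂, H₂, hH₂⟩ := Pool.Agent.TH120.Sec.clear2 h
  obtain ⟨a, ha⟩ : ∃ a : 𝓞 K, a = a₁ * a₂ := ⟨_, rfl⟩
  have ha0 : (a : K) ≠ 0 := by
    intro h0
    rw [ha] at h0
    exact mul_ne_zero ha₁ ha₂ (RingOfIntegers.coe_injective h0)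
  have haK : (a : K) = (a₁ : K) * (a₂ : K) := by
    rw [ha]
    exact map_mul (algebraMap (𝓞 K) K) a₁ a₂
  obtain ⟨G, hGdef⟩ : ∃ G : (𝓞 K)[X], G = C a₂ * G₁ := ⟨_, rfl⟩
  obtain ⟨H, hHdef⟩ : ∃ H : (𝓞 K)[X][X], H = C (C a₁) * H₂ := ⟨_, rfl⟩
  have hG : G.map (algebraMap (𝓞 K) K) = C (a : K) * g := by
    rw [hGdef, Polynomial.map_mul, map_C, hG₁, haK, C_mul]
    ring
  have hH : H.map (mapRingHom (algebraMap (𝓞 K) K)) = C (C (a : K)) * h := by
    rw [hHdef, Polynomial.map_mul, map_C, coe_mapRingHom, map_C, hH₂, haK, C_mul, C_mul]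
    ring
  obtain ⟨θ, σ, hspc⟩ := spc_of ℓ g h a ha0 G H hG hH hs
  have hdeg : H.natDegree = h.natDegree := by
    rw [← natDegree_map_eq_of_injective
      (f := mapRingHom (algebraMap (𝓞 K) K)) (Polynomial.map_injective _ hinj) H, hH,
      natDegree_C_mul (by rwa [Ne, C_eq_zero])]
  refine Pool.Agent.TH120.Sec.fam_dz ℓ G H θ σ hspc _ ?_
  rintro t ht v ⟨hv1, hv2, hloc⟩
  apply ht
  rw [hdeg] at hloc
  -- the member of the family
  set P := H.map (evalRingHom t) with hP
  have hPK : P.map (algebraMap (𝓞 K) K) = C (a : K) * fibre h (t : K) := by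
    rw [hP, Polynomial.map_map, ← evK_eq, ← Polynomial.map_map, hH, Polynomial.map_mul, map_C]
    congr 1
    simp
  have hGt : algebraMap (𝓞 K) K (G.eval t) = a * g.eval (t : K) := by
    have h1 : (G.map (algebraMap (𝓞 K) K)).eval (algebraMap (𝓞 K) K t) =
      algebraMap (𝓞 K) K (G.eval t) := eval_map_apply _ _
    rw [hG, eval_mul, eval_C] at h1
    exact h1.symm
  have hsep := Pool.Agent.TH120.Sec.sep_lift v P hloc.2.1 hloc.2.2.1
  have hdegP : (P.map (algebraMap (𝓞 K) K)).natDegree = h.natDegree := by
    rw [natDegree_map_eq_of_injective hinj, hloc.1]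
  have hdegf : (fibre h (t : K)).natDegree = h.natDegree := by
    rw [← hdegP, hPK, natDegree_C_mul ha0]
  have hlcP : algebraMap (𝓞 K) K P.leadingCoeff = a * (fibre h (t : K)).leadingCoeff := by
    rw [← leadingCoeff_map_of_injective hinj, hPK, leadingCoeff_mul, leadingCoeff_C]
  refine ⟨?_, ?_, hdegf, ?_⟩
  · intro h0
    rw [h0, mul_zero] at hGt
    apply hv2
    rw [RingOfIntegers.coe_injective (a₂ := (0 : 𝓞 K)) hGt]
    exact zero_mem _
  · rw [hPK] at hsep
    exact hsep.of_mul_right
  · rintro n hn ⟨n', rfl⟩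
    refine ⟨⟨?_, ?_⟩, ?_⟩
    · rintro ⟨x, y, hxy⟩
      refine Pool.Agent.TH120.Sec.loc_point v ℓ _ hℓ hd P hloc _ hv1 hv2 x (y ^ n') ?_
      rw [hPK, eval_mul, eval_C, ← hxy, hGt, ← pow_mul, mul_comm n' ℓ]
      ring
    · rintro ⟨r, hr⟩
      have hg : ℓ ∣ Nat.gcd (ℓ * n') (fibre h (t : K)).natDegree := by
        rw [hdegf]
        exact Nat.dvd_gcd (Dvd.intro _ rfl) hℓd
      obtain ⟨e, he⟩ := hg
      refine Pool.Agent.TH120.Sec.loc_infinite v ℓ _ hℓ hd P hloc _ hv1 hv2 (r ^ e) ?_
      rw [hlcP, ← hr, hGt, he, ← pow_mul, mul_comm e ℓ]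
      ring
    · intro F Ω _ _ _ _ _ _ _ x y U hxy hU
      have hcl : IsAlgClosed Ω := IsAlgClosure.isAlgClosed F
      have halg : Algebra.IsAlgebraic F Ω := IsAlgClosure.isAlgebraic
      refine toSec U (Pool.Agent.TH120.Sec.loc_section v ℓ _ hℓ hd P hloc _ hv1 hv2 U hU x
        (y ^ n') ?_)
      rw [hPK, map_mul, aeval_C, ← hxy, ← pow_mul, mul_comm n' ℓ]
      have h1 : algebraMap K F (algebraMap (𝓞 K) K (G.eval t)) =
        algebraMap K F a * algebraMap K F (g.eval (t : K)) := by rw [← map_mul, ← hGt]
      rw [h1]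
      ring

end Pool.Agent.Results.MP_2f3286_ag.OneParameterFamilies
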