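import Pool.Agent.TH954.SEt2

/-!
# Sections of fundamental groups of curves with a map to a power of an elliptic curve of rank one

Let `E` be an elliptic curve over a number field `K` such that `E(K)` has rank at most one over the
ring of `K`-endomorphisms of `E` and the Tate-Shafarevich group of `E` over `K` is killed by some
`M₀ ≥ 1`, and let `X` be a closed subvariety of `Eⁿ` with only finitely many `K`-rational points, for
instance a curve of genus at least two. Let `C` be a smooth curve over `K` with function field `F` and
a map to `X`, that is, a point `P ∈ X(F)`. Let `F_C` be the maximal extension of `F` in an algebraic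
closure `Ω` which is unramified over the points of `C`, so that `π₁(C) = Gal(F_C/F)`. Consider a
section `s` of the map from `π₁(C)` to the absolute Galois group of `K` which is given over the
completion of `K` at each finite place `v` by a point, that is, by a place `p v` of `F_C` with values
in an algebraic closure of the completion. Then there is a `K`-rational point `x` of `X` such that
the image of each of these local points in `X` is `x`, and the image of `s` in `π₁(Eⁿ)` is the one
given by `x`. In particular, if `X` has no `K`-rational point then there is no such section.

The fundamental group is described as in the other files of this folder, and the field `M` in the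
theorem can be any extension of `F` which embeds in `Ω` and contains `F_C`.
-/

open IsDedekindDomain NumberField Pool.Agent.TH954 Pool.Agent.W620.SC

open scoped Classical in
theorem Pool.Agent.Results.MP_2f3286_ag.SectionsPowersOfRankOneCurves.result
    (K : Type) [Field K] [NumberField K] (E : WeierstrassCurve K)
    (hE : ShortIntegral E) (hO : SmallRank E) (M₀ : ℕ) (hM1 : 1 ≤ M₀) (hM : ShaKilledBy E M₀)
    (n : ℕ) (S : Set (MvPolynomial (Fin n × Fin 3) K)) (hS : ∀ f ∈ S, ∃ d, MultiHom d f)
    (hX : {y : Fin n → E.toAffine.Point | OnX S (fun i => crd (y i))}.Finite)
    (F Ω M B : Type) [Field F] [Field Ω] [Field M] [Field B] [Algebra K F] [Algebra F Ω]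
    [Algebra K Ω] [Algebra F M] [Algebra K M] [Algebra K B] [IsScalarTower K F Ω]
    [IsScalarTower K F M] [IsAlgClosure F Ω] [IsAlgClosure K B]
    (C : Set (ValuationSubring F)) (hC : ∀ O ∈ C, ∀ c : K, algebraMap K F c ∈ O)
    (e : M →ₐ[F] Ω) (he : unramified F Ω C ≤ e.fieldRange)
    (P : Fin n → (E.baseChange F).toAffine.Point)
    (hPS : OnX S (fun i => crd (P i))) (s : GalSection K F M B)
    (p : ∀ v : HeightOneSpectrum (𝓞 K), Plc K M (AlgebraicClosure (v.adicCompletion K)))
    (hp : ∀ v, s.GivenBy (v.adicCompletion K) (p v)) :
    ∃ x : Fin n → E.toAffine.Point, OnX S (fun i => crd (x i)) ∧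
      (∀ v i, (p v).Spec (fun j => algebraMap F M (crd (P i) j))
        (fun j => algebraMap K (AlgebraicClosure (v.adicCompletion K)) (crd (x i) j))) ∧
      ∀ i, s.SameKummer E (P i) (x i) :=
  et_main K E hE hO M₀ hM1 hM n S hS hX F Ω M B C hC e he P hPS s p hp
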